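import Pool.Agent.H91.TC.Basic
import Pool.Agent.H88.CM.Cha

/-!
# Board `tsc_modules`, row CVF: constant sequences converge
-/

set_option autoImplicit false

open Set Function Topology Metric Filter
open scoped Manifold

namespace Pool.Agent.H49.TSC

open Pool.Agent.H88.CL Pool.Agent.H88.CM Pool.Agent.H91.TC

theorem pf_CVF : T_CVF := by
  intro n M _ _ _ _ f hf
  refine ⟨fun y => ?_, fun y φ ψ hφ hψ hy hfy => ?_⟩
  · exact (hf.continuous.tendsto y).comp tendsto_snd
  · have h1 : ContDiffAt ℝ 2 (rep φ ψ f) (φ y) := by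
      refine rep_contDiffAt hφ hψ hf (φ.map_source hy) ?_
      rw [φ.left_inv hy]
      exact hfy
    exact (jet_continuousAt h1).tendsto.comp tendsto_snd

end Pool.Agent.H49.TSC
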